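import Pool.Agent.Work.MP_c3ac7c_co.Uniform

set_option autoImplicit false

namespace Pool.Agent.Results.MP_c3ac7c_co.UniformLinear

/-- The bias of a `d`-linear form `T` with respect to the additive character `χ`: the average of
`χ (T x)` over all tuples `x = (x_1, …, x_d)`. -/
noncomputable def bias {d : ℕ} {F : Type} [Field F] [Fintype F] {n : Fin d → ℕ}
    (χ : AddChar F ℂ) (T : MultilinearMap F (fun i : Fin d => Fin (n i) → F) F) : ℂ :=
  (∑ x : (i : Fin d) → Fin (n i) → F, χ (T x)) / (Fintype.card ((i : Fin d) → Fin (n i) → F) : ℂ)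

/-- `T` is a sum of `r` products of two multilinear forms on complementary nonempty proper sets
of variables. -/
def IsSumOfProducts {d : ℕ} {F : Type} [Field F] {n : Fin d → ℕ}
    (T : MultilinearMap F (fun i : Fin d => Fin (n i) → F) F) (r : ℕ) : Prop :=
  ∃ (S : Fin r → Finset (Fin d))
    (a : (k : Fin r) → MultilinearMap F (fun j : {j // j ∈ S k} => Fin (n j.1) → F) F)
    (b : (k : Fin r) → MultilinearMap F (fun j : {j // j ∉ S k} => Fin (n j.1) → F) F),
    (∀ k, (S k).Nonempty ∧ S k ≠ Finset.univ) ∧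
    ∀ x : (i : Fin d) → Fin (n i) → F, T x = ∑ k, a k (fun j => x j.1) * b k (fun j => x j.1)

open Pool.Agent.Lib.PRank in
/-- For every `d ≥ 2` there is one constant `C`, independent of the field, such that for every
finite field `F`, every nontrivial additive character `χ` and every `d`-linear form `T` over `F`,
the bias is a positive real number `β` and `T` is a sum of at most `C * (- log_q β)` products. -/
theorem result (d : ℕ) (hd : 2 ≤ d) : ∃ C : ℝ,
    ∀ (F : Type) [Field F] [Fintype F] (χ : AddChar F ℂ), χ ≠ 1 →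
      ∀ (n : Fin d → ℕ) (T : MultilinearMap F (fun i : Fin d => Fin (n i) → F) F),
        ∃ β : ℝ, 0 < β ∧ bias χ T = (β : ℂ) ∧
          ∃ r : ℕ, IsSumOfProducts T r ∧
            (r : ℝ) ≤ C * (-Real.logb (Fintype.card F : ℝ) β) := by
  obtain ⟨e, rfl⟩ : ∃ e, d = e + 2 := ⟨d - 2, by omega⟩
  obtain ⟨C, hC⟩ := Pool.Agent.Work.MP_c3ac7c_co.exists_gen_uniform (e + 1)
  refine ⟨C, fun F _ _ χ hχ n T => ?_⟩
  let t : (∀ i : Fin (e + 2), Fin (n i)) → F := fun a => T fun i => Pi.single (a i) 1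
  have hT : ∀ x, T x = mlOf t x := eq_mlOf T
  have : Nonempty {i : Fin (e + 2) // i ≠ 0} := ⟨⟨1, by simp⟩⟩
  obtain ⟨hpos, r, hr, hG⟩ := hC F {i : Fin (e + 2) // i ≠ 0} _ (Fin (n 0)) Sigma.fst (by simp)
    (slices 0 t) (isML_slices 0 t)
  obtain ⟨S, f, g, hS, hfg⟩ := (apr_iff_gen 0 t r).mpr hG
  refine ⟨_, div_pos (by exact_mod_cast hpos) (by exact_mod_cast Nat.card_pos), ?_, r,
    ⟨S, fun k => mlOf (f k), fun k => mlOf (g k), hS, fun x => ?_⟩, hr⟩
  · have h1 := Pool.Agent.Work.MP_c3ac7c_co.char_sum T 0 χ hχ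
    rw [bias, h1]
    simp only [hT]
    rw [card_zero_eq, ← Nat.card_eq_fintype_card,
      Nat.card_congr (splitEquiv F (fun i => Fin (n i)) 0), Nat.card_prod,
      Nat.cast_mul, Nat.cast_mul, mul_div_mul_right _ _ (by exact_mod_cast Nat.card_pos.ne')]
    push_cast
    rfl
  · have h1 : T x = ∑ k, mlOf (fun a => f k (fun i => a i.1) * g k (fun i => a i.1)) x := by
      simp only [hT, mlOf_apply, hfg, Finset.sum_mul]
      rw [Finset.sum_comm]
    rw [h1]
    refine Finset.sum_congr rfl fun k _ => ?_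
    rw [mlOf_mul (fun i => i ∈ S k) (f k) (g k) x]
    congr
    exact Subsingleton.elim _ _

end Pool.Agent.Results.MP_c3ac7c_co.UniformLinear
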